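import Pool.Agent.Run7.h461.KS.Mixed

set_option autoImplicit false

namespace Pool.Agent.Results.MP_9317e9_co.NoInfiniteIndependentOutside

universe u

/-- Let `G` be a loopless digraph (any cardinality). Suppose that for each weak component of `G`
(given by a vertex `c`) there are sets `F₁`, `F₂` of vertices such that every induced subdigraph of
`G[F₁]` has a quasi-kernel, every induced subdigraph of `G[F₂]` has a quasi-sink, and no infinite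
independent set of the component avoids `F₁ ∪ F₂`. Then `V` splits into a part with a quasi-kernel
and a part with a quasi-sink. -/
theorem result (V : Type u) (G : Digraph V) (hloop : ∀ v, ¬ G.Adj v v)
    (h : ∀ c : V, ∃ F₁ F₂ : Set V,
      (∀ Y ⊆ F₁, ∃ A ⊆ Y, (∀ a ∈ A, ∀ b ∈ A, ¬ G.Adj a b) ∧
        ∀ v ∈ Y, v ∈ A ∨ ∃ a ∈ A, G.Adj a v ∨ ∃ u ∈ Y, G.Adj a u ∧ G.Adj u v) ∧
      (∀ Y ⊆ F₂, ∃ B ⊆ Y, (∀ a ∈ B, ∀ b ∈ B, ¬ G.Adj a b) ∧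
        ∀ v ∈ Y, v ∈ B ∨ ∃ b ∈ B, G.Adj v b ∨ ∃ u ∈ Y, G.Adj v u ∧ G.Adj u b) ∧
      ∀ f : ℕ → V, Function.Injective f →
        (∀ i, Relation.EqvGen G.Adj c (f i) ∧ f i ∉ F₁ ∧ f i ∉ F₂) →
        ∃ i j, G.Adj (f i) (f j)) :
    ∃ W : Set V,
      (∃ A ⊆ W, (∀ a ∈ A, ∀ b ∈ A, ¬ G.Adj a b) ∧
        ∀ v ∈ W, v ∈ A ∨ ∃ a ∈ A, G.Adj a v ∨ ∃ u ∈ W, G.Adj a u ∧ G.Adj u v) ∧
      (∃ B ⊆ Wᶜ, (∀ a ∈ B, ∀ b ∈ B, ¬ G.Adj a b) ∧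
        ∀ v ∈ Wᶜ, v ∈ B ∨ ∃ b ∈ B, G.Adj v b ∨ ∃ u ∈ Wᶜ, G.Adj v u ∧ G.Adj u b) := by
  obtain ⟨W, -, hA, hB⟩ := Run7.h461.KS.solv_of_mixed (G := G) hloop h
  rw [← Set.compl_eq_univ_sdiff] at hB
  exact ⟨W, hA, hB⟩

end Pool.Agent.Results.MP_9317e9_co.NoInfiniteIndependentOutside
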